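import Pool.Agent.MT100A.DefsC
import Pool.Agent.Helper46_MTA.Exa
import Pool.Agent.Helper46_MTG.Ex3
import Pool.Agent.Helper47_MT100G.Uni
import Pool.Agent.Helper5_MT100.Gcl

/-! Non-emptiness of the hypotheses, part 1: the families with the fundamental matrix `z ^ N`. -/

set_option autoImplicit false

namespace Pool.Agent.MT100A.NV3

open Matrix Pool.Agent.MT100 Pool.Agent.MT100G Pool.Agent.Helper78_MT

variable {d : Type} [Fintype d] [DecidableEq d]

theorem evC_C (a : ℚ) (x : ℂ) : evC (PowerSeries.C a) x = (a : ℂ) := by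
  unfold evC
  rw [tsum_eq_single 0]
  · rw [PowerSeries.coeff_zero_C, pow_zero, mul_one]
  · intro k hk
    rw [PowerSeries.coeff_C, if_neg hk, Rat.cast_zero, zero_mul]

omit [Fintype d] in
theorem one_map_evC (x : ℂ) :
    (1 : Matrix d d (PowerSeries ℚ)).map (fun f => evC f x) = 1 := by
  ext i j
  rw [Matrix.map_apply, Matrix.one_apply, Matrix.one_apply]
  split_ifs
  · have h := evC_C 1 x
    rw [map_one] at h
    rw [h, Rat.cast_one]
  · have h := evC_C 0 x
    rw [map_zero] at h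
    rw [h, Rat.cast_zero]

theorem gsys (N : Matrix d d ℤ) (hN : IsNilpotent N) :
    GSys (1 : Matrix d d (PowerSeries ℚ)) 1 N 1 (N.map Polynomial.C) where
  inv := one_mul 1
  one := by
    intro i j
    rw [Matrix.one_apply]
    split_ifs
    · exact map_one _
    · exact map_zero _
  nil := hN
  q0 := one_ne_zero
  ode := by
    ext1 i j
    rw [Matrix.smul_apply, Matrix.map_apply, Matrix.sub_apply, Matrix.smul_apply, mul_one, one_mul,
      Matrix.map_apply, Matrix.map_apply, Matrix.map_apply]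
    have h1 : dv ((1 : Matrix d d (PowerSeries ℚ)) i j) = 0 := by
      rw [Matrix.one_apply]
      split_ifs
      · exact Derivation.map_one_eq_zero _
      · exact map_zero _
    have h2 : zp 1 = 1 := by
      unfold zp zq
      rw [Polynomial.map_one, Polynomial.coe_one]
    have h3 : zp (Polynomial.C (N i j)) = ((N i j : ℤ) : PowerSeries ℚ) := by
      unfold zp zq
      rw [Polynomial.map_C, Polynomial.coe_C, eq_intCast, map_intCast]
    rw [h1, h2, h3, smul_zero, one_smul, sub_self]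
  gH := by
    intro i j
    rw [Matrix.one_apply]
    split_ifs
    · exact (map_one (PowerSeries.C (R := ℚ))) ▸ Helper5_MT100.gconst 1
    · exact (map_zero (PowerSeries.C (R := ℚ))) ▸ Helper5_MT100.gconst 0
  gK := by
    intro i j
    rw [Matrix.one_apply]
    split_ifs
    · exact (map_one (PowerSeries.C (R := ℚ))) ▸ Helper5_MT100.gconst 1
    · exact (map_zero (PowerSeries.C (R := ℚ))) ▸ Helper5_MT100.gconst 0

/-- the family with the fundamental matrix `z ^ N` -/
noncomputable def nf (N : Matrix d d ℤ) (hN : IsNilpotent N) : Sys d :=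
  ⟨1, 1, N, 1, N.map Polynomial.C, gsys N hN⟩

theorem YH_one (N : Matrix d d ℤ) (w : ℂ) :
    YH (1 : Matrix d d (PowerSeries ℚ)) N w = eN N (-Complex.log w) := by
  unfold YH
  rw [one_map_evC, one_mul]

/-- the function element is `exp (-L N)` for a branch `L` of the logarithm -/
def Inv (N : Matrix d d ℤ) (x : ℂ × ℝ × (ℂ → Matrix d d ℂ)) : Prop :=
  ∃ L : ℂ → ℂ, ∀ w ∈ Metric.ball x.1 x.2.1, Complex.exp (L w) = w ∧ x.2.2 w = eN N (-L w)

/-- a branch of the logarithm on a disc which does not contain zero -/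
theorem log_disc (c : ℂ) (ρ : ℝ) (h : ∀ w ∈ Metric.ball c ρ, w ≠ 0) (w0 : ℂ)
    (hw0 : w0 ∈ Metric.ball c ρ) (l0 : ℂ) (hl0 : Complex.exp l0 = w0) :
    ∃ L : ℂ → ℂ, L w0 = l0 ∧ ∀ w ∈ Metric.ball c ρ, Complex.exp (L w) = w ∧ HasDerivAt L w⁻¹ w := by
  have hρ : 0 < ρ := lt_of_le_of_lt dist_nonneg (Metric.mem_ball.mp hw0)
  have hc : c ≠ 0 := h c (Metric.mem_ball_self hρ)
  have hρc : ρ ≤ ‖c‖ := by
    by_contra hlt
    rw [not_le] at hlt
    refine h 0 ?_ rfl
    rw [Metric.mem_ball, dist_comm, dist_zero_right]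
    exact hlt
  have hslit : ∀ w ∈ Metric.ball c ρ, w / c ∈ Complex.slitPlane := by
    intro w hw
    left
    have h1 : ‖w / c - 1‖ < 1 := by
      rw [div_sub_one hc, norm_div, div_lt_one (norm_pos_iff.mpr hc)]
      rw [Metric.mem_ball, dist_eq_norm] at hw
      exact lt_of_lt_of_le hw hρc
    have h2 := Complex.abs_re_le_norm (w / c - 1)
    rw [Complex.sub_re, Complex.one_re] at h2
    have h3 := (abs_lt.mp (lt_of_le_of_lt h2 h1)).1
    linarith
  refine ⟨fun w => Complex.log (w / c) + (l0 - Complex.log (w0 / c)), by ring, fun w hw => ⟨?_, ?_⟩⟩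
  · have hwc : w / c ≠ 0 := div_ne_zero (h w hw) hc
    have hwc0 : w0 / c ≠ 0 := div_ne_zero (h w0 hw0) hc
    have hw00 := h w0 hw0
    rw [Complex.exp_add, Complex.exp_log hwc, Complex.exp_sub, hl0, Complex.exp_log hwc0]
    field_simp
  · have h1 : HasDerivAt (fun w => w / c) (1 / c) w := (hasDerivAt_id w).div_const c
    have h2 := (h1.clog (hslit w hw)).add_const (l0 - Complex.log (w0 / c))
    refine h2.congr_deriv ?_
    have hw' := h w hw
    field_simp

theorem eN_sol {N : Matrix d d ℤ} (hN : IsNilpotent N) {L : ℂ → ℂ} {w : ℂ}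
    (hL : HasDerivAt L w⁻¹ w) (i j : d) :
    HasDerivAt (fun x => eN N (-L x) i j)
      ((((-w⁻¹) • N.map (fun y : ℤ => (y : ℂ))) * eN N (-L w)) i j) w := by
  have h1 := (H43.eN_deriv N hN (-L w) i j).comp w hL.neg
  refine h1.congr_deriv ?_
  rw [Matrix.smul_mul, Matrix.smul_apply, smul_eq_mul, mul_comm]

theorem eN_unit {N : Matrix d d ℤ} (hN : IsNilpotent N) (x : ℂ) : IsUnit (eN N x).det := by
  have h := congrArg Matrix.det (H43.eN_mul_neg N hN x)
  rw [Matrix.det_mul, Matrix.det_one] at h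
  exact IsUnit.of_mul_eq_one _ h

theorem step {N : Matrix d d ℤ} (hN : IsNilpotent N) {U : Set ℂ}
    {x y : ℂ × ℝ × (ℂ → Matrix d d ℂ)} (h : Stp 1 (N.map Polynomial.C) U x y) (hx : Inv N x) :
    Inv N y := by
  obtain ⟨-, hy, -, -, ⟨w0, hw0⟩, hagree⟩ := h
  obtain ⟨L, hL⟩ := hx
  obtain ⟨L', hL'0, hL'⟩ := log_disc y.1 y.2.1 (fun w hw => (hy.reg w hw).1) w0 hw0.2 (L w0)
    (hL w0 hw0.1).1
  refine ⟨L', fun w hw => ⟨(hL' w hw).1, ?_⟩⟩
  obtain ⟨g, hg⟩ := H47.uni d (fun w => (-w⁻¹) • N.map (fun y : ℤ => (y : ℂ)))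
    (Metric.ball y.1 y.2.1) Metric.isOpen_ball (convex_ball _ _) (fun w => eN N (-L' w)) y.2.2
    (fun w hw => ⟨eN_unit hN _, fun i j => eN_sol hN (hL' w hw).2 i j⟩)
    (fun w hw i j => by
      refine (hy.ode w hw i j).congr_deriv ?_
      have h1 : (N.map Polynomial.C).map (fun p : Polynomial ℤ => zC p w⁻¹) =
          N.map (fun y : ℤ => (y : ℂ)) := by
        ext a b
        rw [Matrix.map_apply, Matrix.map_apply, Matrix.map_apply]
        unfold zC
        rw [Polynomial.map_C, Polynomial.eval_C, eq_intCast]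
      have h2 : zC 1 w⁻¹ = 1 := by
        unfold zC
        rw [Polynomial.map_one, Polynomial.eval_one]
      rw [h1, h2, mul_one, Matrix.smul_mul, Matrix.smul_apply, smul_eq_mul, neg_mul])
  have h1 := hg w0 hw0.2
  rw [← hagree w0 hw0, (hL w0 hw0.1).2, hL'0] at h1
  have h2 : g = 1 := by
    have h3 := congrArg (fun M => eN N (L w0) * M) h1
    have h4 : eN N (L w0) * eN N (-L w0) = 1 := H43.eN_mul_neg N hN (L w0)
    rw [← Matrix.mul_assoc, h4, Matrix.one_mul] at h3
    exact h3.symm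
  rw [hg w hw, h2, Matrix.mul_one]

/-- the monodromy group of the family -/
theorem mo_nf {N : Matrix d d ℤ} (hN : IsNilpotent N) {g : Matrix d d ℂ}
    (hg : g ∈ (nf N hN).mo Set.univ) : ∃ k : ℤ, g = eN N (k * (2 * Real.pi * Complex.I)) := by
  have hg' : ∀ᶠ c : ℝ in Filter.atTop, Cnt 1 (N.map Polynomial.C) Set.univ
      ((c : ℂ), 1, YH (1 : Matrix d d (PowerSeries ℚ)) N)
      ((c : ℂ), 1, fun w => YH (1 : Matrix d d (PowerSeries ℚ)) N w * g) := hg
  obtain ⟨c, hc, hc1⟩ := (hg'.and (Filter.eventually_gt_atTop 1)).exists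
  have h0 : Inv N ((c : ℂ), 1, YH (1 : Matrix d d (PowerSeries ℚ)) N) := by
    refine ⟨Complex.log, fun w hw => ⟨Complex.exp_log ?_, YH_one N w⟩⟩
    rintro rfl
    rw [Metric.mem_ball, dist_comm, dist_zero_right, Complex.norm_real, Real.norm_eq_abs,
      abs_of_pos (by linarith)] at hw
    linarith
  have h1 : Inv N ((c : ℂ), 1, fun w => YH (1 : Matrix d d (PowerSeries ℚ)) N w * g) := by
    refine Relation.ReflTransGen.head_induction_on (motive := fun a _ => Inv N a →
      Inv N ((c : ℂ), 1, fun w => YH (1 : Matrix d d (PowerSeries ℚ)) N w * g)) hc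
      (fun h => h) (fun hs _ ih h => ih (step hN hs h)) h0
  obtain ⟨L, hL⟩ := h1
  obtain ⟨h2, h3⟩ := hL (c : ℂ) (Metric.mem_ball_self one_pos)
  have hc0 : (c : ℂ) ≠ 0 := Complex.ofReal_ne_zero.mpr (by linarith)
  have h4 : Complex.exp (L c) = Complex.exp (Complex.log c) := by rw [h2, Complex.exp_log hc0]
  obtain ⟨k, hk⟩ := Complex.exp_eq_exp_iff_exists_int.mp h4
  refine ⟨-k, ?_⟩
  have h5 : YH (1 : Matrix d d (PowerSeries ℚ)) N (c : ℂ) * g = eN N (-L c) := h3
  rw [YH_one] at h5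
  have h6 := congrArg (fun M => eN N (Complex.log c) * M) h5
  rw [← Matrix.mul_assoc, H43.eN_mul_neg N hN, Matrix.one_mul, ← H46.eN_add N hN, hk] at h6
  rw [h6]
  congr 1
  push_cast
  ring

end Pool.Agent.MT100A.NV3
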