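import Pool.Agent.Helper78_MTC.Nv3A
import Pool.Agent.Helper78_MTA.Uex
import Pool.Agent.Helper97_MTA.Maa
import Pool.Agent.Helper97_MTA.Moa

/-! Non-emptiness of the hypotheses, part 2: the theorem of the fixed part for the families with the
fundamental matrix `z ^ N`. -/

set_option autoImplicit false

namespace Pool.Agent.MT100A.NV3

open Matrix Pool.Agent.MT100 Pool.Agent.MT100G Pool.Agent.Helper78_MT Pool.Agent.MT100A.H78

variable {d : Type} [Fintype d] [DecidableEq d]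

omit [Fintype d] [DecidableEq d] in
theorem pev_tr (M : Matrix d d ℂ) (p : MvPolynomial (d × d) ℂ) :
    pev M (MvPolynomial.rename Prod.swap p) = pev Mᵀ p := by
  unfold pev
  rw [MvPolynomial.aeval_rename]
  rfl

theorem zc_conjT {M : Set (Matrix d d ℂ)} {P : Matrix d d ℂ} (hP : IsUnit P.det)
    {g : Matrix d d ℂ} (hg : g ∈ zclosure ℂ ℂ M) :
    P * gᵀ * P⁻¹ ∈ zclosure ℂ ℂ {γ | ∃ g ∈ M, γ = P * gᵀ * P⁻¹} := by
  refine ⟨?_, fun p hp => ?_⟩
  · rw [Matrix.det_mul, Matrix.det_mul, Matrix.det_transpose]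
    exact (hP.mul hg.1).mul (Matrix.isUnit_nonsing_inv_det _ hP)
  · have h1 : ∀ m : Matrix d d ℂ, pev m (MvPolynomial.rename Prod.swap (lsub P (rsub P⁻¹ p))) =
        pev (P * mᵀ * P⁻¹) p := by
      intro m
      rw [pev_tr, pev_lsub, pev_rsub]
    rw [← h1]
    exact hg.2 _ fun m hm => by rw [h1]; exact hp _ ⟨m, hm, rfl⟩

theorem ue_tr (N : Matrix d d ℤ) (s : ℂ) :
    ue ((N.map (fun y : ℤ => (y : ℂ)))ᵀ) s = (eN N s)ᵀ := by
  unfold ue eN
  rw [Matrix.transpose_sum]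
  refine Finset.sum_congr rfl fun t _ => ?_
  have h1 : (N.map (fun y : ℤ => (y : ℂ))) ^ t = (N ^ t).map (fun y : ℤ => (y : ℂ)) := by
    have h : ∀ M : Matrix d d ℤ, M.map (fun y : ℤ => (y : ℂ)) = (Int.castRingHom ℂ).mapMatrix M :=
      fun M => rfl
    rw [h, h, map_pow]
  rw [← Matrix.transpose_pow, h1, Matrix.transpose_smul]
  congr 1
  rw [Rat.smul_def]
  push_cast
  rfl

theorem nil_T {N : Matrix d d ℤ} (hN : IsNilpotent N) :
    IsNilpotent ((N.map (fun y : ℤ => (y : ℂ)))ᵀ) := by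
  obtain ⟨k, hk⟩ := hN
  refine ⟨k, ?_⟩
  have h1 : (N.map (fun y : ℤ => (y : ℂ))) ^ k = (N ^ k).map (fun y : ℤ => (y : ℂ)) := by
    have h : ∀ M : Matrix d d ℤ, M.map (fun y : ℤ => (y : ℂ)) = (Int.castRingHom ℂ).mapMatrix M :=
      fun M => rfl
    rw [h, h, map_pow]
  rw [← Matrix.transpose_pow, h1, hk]
  ext i j
  rw [Matrix.transpose_apply, Matrix.map_apply, Matrix.zero_apply, Matrix.zero_apply, Int.cast_zero]

/-- the periods at two points differ by an element of a unipotent one parameter subgroup -/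
theorem uni_nf {N : Matrix d d ℤ} (hN : IsNilpotent N) {P : Matrix d d ℂ} (hP : IsUnit P.det)
    (s : ℂ) : P * (eN N s)ᵀ * P⁻¹ ∈ Uni ((nf N hN).Mo P) := by
  have h := Matrix.nonsing_inv_mul _ hP
  have h' := Matrix.mul_nonsing_inv _ hP
  have h1 : ∀ s' : ℂ, ue (s • (P * (N.map (fun y : ℤ => (y : ℂ)))ᵀ * P⁻¹)) s' =
      P * (eN N (s' * s))ᵀ * P⁻¹ := by
    intro s'
    rw [← ue_tr, ← ue_conj h h']
    unfold ue
    refine Finset.sum_congr rfl fun t _ => ?_
    rw [_root_.smul_pow, smul_smul, mul_pow, mul_assoc]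
  refine ⟨s • (P * (N.map (fun y : ℤ => (y : ℂ)))ᵀ * P⁻¹), nil_smul (nil_conj h h' (nil_T hN)) s, ?_,
    fun s' => ?_⟩
  · rw [h1, one_mul]
  · rw [h1]
    exact zc_conjT hP (H46.exa H97.moa d (nf N hN) (s' * s))

theorem per_nf {N : Matrix d d ℤ} (hN : IsNilpotent N) {P : Matrix d d ℂ} (hP : IsUnit P.det)
    (x y : ℂ) (a : d) : (nf N hN).per P y a =
      (P * (eN N (Complex.log x - Complex.log y))ᵀ * P⁻¹) *ᵥ (nf N hN).per P x a := by
  rw [← H97.per_act (nf N hN) hP]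
  unfold Sys.per
  congr 1
  show YH (1 : Matrix d d (PowerSeries ℚ)) N y a = (YH (1 : Matrix d d (PowerSeries ℚ)) N x *
    eN N (Complex.log x - Complex.log y)) a
  rw [YH_one, YH_one, ← MT100G.H46.eN_add N hN]
  congr 2
  ring

/-- the theorem of the fixed part -/
theorem fix_nf {N : Matrix d d ℤ} (hN : IsNilpotent N) {P : Matrix d d ℂ} (hP : IsUnit P.det)
    (lev : d → ℕ) (w : ℕ) (R : ℝ) : (nf N hN).FixedPart lev P w R := by
  intro k t ht x y _ _ hx a ha
  have h1 := ht _ (uni_nf hN hP (Complex.log x - Complex.log y))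
  have h2 := H97.tA_eval (fun β => (t β : ℂ))
    (P * (eN N (Complex.log x - Complex.log y))ᵀ * P⁻¹) (fun j => (nf N hN).per P x (a j))
  rw [h1] at h2
  rw [← hx a ha, h2]
  refine Finset.sum_congr rfl fun β _ => ?_
  congr 1
  refine Finset.prod_congr rfl fun j _ => ?_
  rw [per_nf hN hP (x : ℂ) (y : ℂ) (a j)]

end Pool.Agent.MT100A.NV3
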