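import Pool.Agent.Helper78_MTC.Nv3B

/-! Non-emptiness of the hypotheses, part 3: a family of rank four and weight one with the monodromy
group `ℤ`: the product of a degenerating family with a constant plane. -/

set_option autoImplicit false

namespace Pool.Agent.MT100A.NV3

open Matrix Pool.Agent.MT100 Pool.Agent.MT100G Pool.Agent.Helper78_MT Pool.Agent.MT100A.H78

/-- the monodromy logarithm -/
def N4 : Matrix (Fin 4) (Fin 4) ℤ := !![0, 1, 0, 0; 0, 0, 0, 0; 0, 0, 0, 0; 0, 0, 0, 0]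

/-- the rational structure -/
noncomputable def P4 : Matrix (Fin 4) (Fin 4) ℂ :=
  !![1, 0, 0, 0; 0, (2 * Real.pi * Complex.I)⁻¹, 0, 0; 0, 0, 1, 0; 0, 0, Complex.I, 1]

/-- the polarisation -/
def E4 : Matrix (Fin 4) (Fin 4) ℚ := !![0, 1, 0, 0; -1, 0, 0, 0; 0, 0, 0, 1; 0, 0, -1, 0]

/-- the levels -/
def lev4 : Fin 4 → ℕ := ![1, 0, 1, 0]

theorem N4_sq : N4 ^ 2 = 0 := by decide

theorem N4_nil : IsNilpotent N4 := ⟨2, N4_sq⟩

theorem tpi : (2 * Real.pi * Complex.I : ℂ) ≠ 0 := Complex.two_pi_I_ne_zero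

theorem P4_det : IsUnit P4.det := by
  have h : P4.det = (2 * Real.pi * Complex.I)⁻¹ := by
    unfold P4
    rw [Matrix.det_succ_row_zero]
    simp [Fin.sum_univ_succ, Matrix.det_succ_row_zero, Fin.succAbove, Matrix.submatrix]
  rw [h]
  exact (inv_ne_zero tpi).isUnit

theorem eN4 (s : ℂ) : eN N4 s = !![1, s, 0, 0; 0, 1, 0, 0; 0, 0, 1, 0; 0, 0, 0, 1] := by
  have h3 : N4 ^ 3 = 0 := by decide
  unfold eN
  simp only [Fintype.card_fin, Finset.sum_range_succ, Finset.sum_range_zero, N4_sq, h3, pow_zero,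
    pow_one]
  ext i j
  fin_cases i <;> fin_cases j <;> simp [N4]

/-- the monodromy matrices in the rational structure -/
def A4 (k : ℤ) : Matrix (Fin 4) (Fin 4) ℤ := !![1, 0, 0, 0; k, 1, 0, 0; 0, 0, 1, 0; 0, 0, 0, 1]

theorem mo4 {γ : Matrix (Fin 4) (Fin 4) ℂ} (h : γ ∈ (nf N4 N4_nil).Mo P4) :
    ∃ k : ℤ, γ = (A4 k).map (fun x => (x : ℂ)) := by
  obtain ⟨g, hg, rfl⟩ := h
  obtain ⟨k, rfl⟩ := mo_nf N4_nil hg
  refine ⟨k, ?_⟩
  have h1 : P4 * (eN N4 (k * (2 * Real.pi * Complex.I)))ᵀ = (A4 k).map (fun x => (x : ℂ)) * P4 := by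
    rw [eN4]
    have h2 := tpi
    ext i j
    fin_cases i <;> fin_cases j <;>
      simp [P4, A4, Matrix.mul_apply, Fin.sum_univ_succ]
    field_simp
    rw [Complex.I_sq]
    ring
  rw [h1, Matrix.mul_assoc, Matrix.mul_nonsing_inv _ P4_det, Matrix.mul_one]

theorem mo4' : (A4 1).map (fun x => (x : ℂ)) ∈ (nf N4 N4_nil).Mo P4 := by
  have h : eN N4 (-(2 * Real.pi * Complex.I) : ℂ) ∈ (nf N4 N4_nil).mo Set.univ :=
    MT100G.H46.ex3 _ _ _ _ _ _ (nf N4 N4_nil).sys
  have h' := (H97.moa _ (nf N4 N4_nil) Set.univ).2.2.2 _ h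
  refine ⟨_, h', ?_⟩
  have h1 : (eN N4 (-(2 * Real.pi * Complex.I)))⁻¹ = eN N4 (2 * Real.pi * Complex.I) := by
    apply Matrix.inv_eq_right_inv
    rw [← MT100G.H46.eN_add N4 N4_nil, neg_add_cancel, MT100G.H43.eN_zero N4 N4_nil]
  rw [h1]
  have h2 : P4 * (eN N4 (2 * Real.pi * Complex.I))ᵀ = (A4 1).map (fun x => (x : ℂ)) * P4 := by
    rw [eN4]
    have h2 := tpi
    ext i j
    fin_cases i <;> fin_cases j <;>
      simp [P4, A4, Matrix.mul_apply, Fin.sum_univ_succ]
    field_simp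
    rw [Complex.I_sq]
    ring
  rw [h2, Matrix.mul_assoc, Matrix.mul_nonsing_inv _ P4_det, Matrix.mul_one]

theorem int4 : (nf N4 N4_nil).IntM P4 := fun γ hγ => by
  obtain ⟨k, hk⟩ := mo4 hγ
  exact ⟨A4 k, hk⟩

theorem inv4 : (nf N4 N4_nil).InvM P4 E4 := by
  intro γ hγ
  obtain ⟨k, rfl⟩ := mo4 hγ
  ext i j
  fin_cases i <;> fin_cases j <;>
    simp [A4, E4, Matrix.mul_apply, Fin.sum_univ_succ]

/-- the pieces -/
def W (a b : ℂ) : Submodule ℂ (Fin 4 → ℂ) where
  carrier := {x | x 1 = a * x 0 ∧ x 3 = b * x 2}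
  add_mem' := by
    rintro x y ⟨h1, h2⟩ ⟨h3, h4⟩
    refine ⟨?_, ?_⟩
    · simp only [Pi.add_apply]; rw [h1, h3]; ring
    · simp only [Pi.add_apply]; rw [h2, h4]; ring
  zero_mem' := by simp
  smul_mem' := by
    rintro c x ⟨h1, h2⟩
    refine ⟨?_, ?_⟩
    · simp only [Pi.smul_apply, smul_eq_mul]; rw [h1]; ring
    · simp only [Pi.smul_apply, smul_eq_mul]; rw [h2]; ring

theorem mem_W {a b : ℂ} {x : Fin 4 → ℂ} : x ∈ W a b ↔ x 1 = a * x 0 ∧ x 3 = b * x 2 := Iff.rfl

/-- the Hodge decomposition -/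
noncomputable def V4 (τ : ℝ) (p : ℕ) : Submodule ℂ (Fin 4 → ℂ) :=
  if p = 1 then W (Complex.I * τ) Complex.I
  else if p = 0 then W (-(Complex.I * τ)) (-Complex.I) else ⊥

theorem V4_one (τ : ℝ) : V4 τ 1 = W (Complex.I * τ) Complex.I := rfl
theorem V4_zero (τ : ℝ) : V4 τ 0 = W (-(Complex.I * τ)) (-Complex.I) := rfl
theorem V4_big (τ : ℝ) (p : ℕ) (h : 1 < p) : V4 τ p = ⊥ := by
  unfold V4
  rw [if_neg (by omega), if_neg (by omega)]

theorem e4 (x y : Fin 4 → ℂ) : x ⬝ᵥ (E4.map (algebraMap ℚ ℂ) *ᵥ y) =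
    x 0 * y 1 - x 1 * y 0 + (x 2 * y 3 - x 3 * y 2) := by
  simp [E4, dotProduct, Matrix.mulVec, Fin.sum_univ_succ]
  ring

theorem pol4 {τ : ℝ} (hτ : 0 < τ) : PolHodge 1 E4 (V4 τ) where
  top := fun p hp => V4_big τ p hp
  indep := by
    have hτ' : (τ : ℂ) ≠ 0 := Complex.ofReal_ne_zero.mpr hτ.ne'
    have key : ∀ x : Fin 4 → ℂ, x ∈ V4 τ 1 → x ∈ V4 τ 0 → x = 0 := by
      intro x h1 h0
      rw [V4_one, mem_W] at h1
      rw [V4_zero, mem_W] at h0
      have h2 : x 0 = 0 := by
        have h3 : 2 * (Complex.I * τ) * x 0 = 0 := by linear_combination h0.1 - h1.1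
        have h4 : (2 * (Complex.I * τ) : ℂ) ≠ 0 :=
          mul_ne_zero two_ne_zero (mul_ne_zero Complex.I_ne_zero hτ')
        exact (mul_eq_zero.mp h3).resolve_left h4
      have h5 : x 2 = 0 := by
        have h3 : 2 * Complex.I * x 2 = 0 := by linear_combination h0.2 - h1.2
        exact (mul_eq_zero.mp h3).resolve_left (mul_ne_zero two_ne_zero Complex.I_ne_zero)
      funext i
      fin_cases i
      · exact h2
      · show x 1 = 0
        rw [h1.1, h2, mul_zero]
      · exact h5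
      · show x 3 = 0
        rw [h1.2, h5, mul_zero]
    rw [iSupIndep_def]
    intro p
    rw [Submodule.disjoint_def]
    intro x hx hx'
    have hle : ∀ q, (⨆ j, ⨆ (_ : j ≠ q), V4 τ j) ≤ if q = 0 then V4 τ 1 else V4 τ 0 ⊔ V4 τ 1 := by
      intro q
      refine iSup_le fun j => iSup_le fun hj => ?_
      rcases lt_or_ge 1 j with h | h
      · rw [V4_big τ j h]; exact bot_le
      · interval_cases j
        · rw [if_neg (Ne.symm hj)]; exact le_sup_left
        · split_ifs
          · exact le_rfl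
          · exact le_sup_right
    rcases lt_or_ge 1 p with h | h
    · rw [V4_big τ p h] at hx
      exact (Submodule.mem_bot ℂ).mp hx
    · interval_cases p
      · exact key x (hle 0 hx') hx
      · have h1 : (⨆ j, ⨆ (_ : j ≠ 1), V4 τ j) ≤ V4 τ 0 := by
          refine iSup_le fun j => iSup_le fun hj => ?_
          rcases lt_or_ge 1 j with h | h
          · rw [V4_big τ j h]; exact bot_le
          · interval_cases j
            · exact le_rfl
            · exact absurd rfl hj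
        exact key x hx (h1 hx')
  span := by
    have hτ' : (τ : ℂ) ≠ 0 := Complex.ofReal_ne_zero.mpr hτ.ne'
    rw [eq_top_iff]
    intro x _
    have hI := Complex.I_ne_zero
    have h1 : x = ![(x 0 + x 1 / (Complex.I * τ)) / 2, (Complex.I * τ) * ((x 0 + x 1 / (Complex.I * τ)) / 2),
        (x 2 + x 3 / Complex.I) / 2, Complex.I * ((x 2 + x 3 / Complex.I) / 2)] +
        ![(x 0 - x 1 / (Complex.I * τ)) / 2, -(Complex.I * τ) * ((x 0 - x 1 / (Complex.I * τ)) / 2),
        (x 2 - x 3 / Complex.I) / 2, -Complex.I * ((x 2 - x 3 / Complex.I) / 2)] := by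
      funext i
      fin_cases i
      · show x 0 = (x 0 + x 1 / (Complex.I * τ)) / 2 + (x 0 - x 1 / (Complex.I * τ)) / 2
        ring
      · show x 1 = (Complex.I * τ) * ((x 0 + x 1 / (Complex.I * τ)) / 2) +
          -(Complex.I * τ) * ((x 0 - x 1 / (Complex.I * τ)) / 2)
        field_simp
        ring
      · show x 2 = (x 2 + x 3 / Complex.I) / 2 + (x 2 - x 3 / Complex.I) / 2
        ring
      · show x 3 = Complex.I * ((x 2 + x 3 / Complex.I) / 2) +
          -Complex.I * ((x 2 - x 3 / Complex.I) / 2)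
        field_simp
        ring
    rw [h1]
    refine Submodule.add_mem _ (Submodule.mem_iSup_of_mem 1 ?_) (Submodule.mem_iSup_of_mem 0 ?_)
    · rw [V4_one]; exact ⟨rfl, rfl⟩
    · rw [V4_zero]; exact ⟨rfl, rfl⟩
  conj := by
    intro p hp x hx
    interval_cases p
    · rw [V4_zero, mem_W] at hx
      show star x ∈ V4 τ 1
      rw [V4_one, mem_W]
      refine ⟨?_, ?_⟩
      · rw [Pi.star_apply, Pi.star_apply, hx.1, star_mul']
        simp
      · rw [Pi.star_apply, Pi.star_apply, hx.2, star_mul']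
        simp
    · rw [V4_one, mem_W] at hx
      show star x ∈ V4 τ 0
      rw [V4_zero, mem_W]
      refine ⟨?_, ?_⟩
      · rw [Pi.star_apply, Pi.star_apply, hx.1, star_mul']
        simp
      · rw [Pi.star_apply, Pi.star_apply, hx.2, star_mul']
        simp
  symm := by
    ext i j
    fin_cases i <;> fin_cases j <;> simp [E4]
  orth := by
    intro p q hpq x hx y hy
    rw [e4]
    rcases lt_or_ge 1 p with h | h
    · rw [V4_big τ p h, Submodule.mem_bot] at hx
      rw [hx]; simp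
    rcases lt_or_ge 1 q with h' | h'
    · rw [V4_big τ q h', Submodule.mem_bot] at hy
      rw [hy]; simp
    interval_cases p <;> interval_cases q
    · rw [V4_zero, mem_W] at hx hy
      rw [hx.1, hx.2, hy.1, hy.2]; ring
    · exact absurd rfl hpq
    · exact absurd rfl hpq
    · rw [V4_one, mem_W] at hx hy
      rw [hx.1, hx.2, hy.1, hy.2]; ring
  pos := by
    intro p hp x hx hx0
    have hpos : ∀ a b : ℂ, x 1 = a * x 0 → x 3 = b * x 2 →
        0 < 2 * τ * Complex.normSq (x 0) + 2 * Complex.normSq (x 2) := by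
      intro a b h1 h2
      by_cases h3 : x 0 = 0
      · have h4 : x 2 ≠ 0 := by
          intro h4
          apply hx0
          funext i
          fin_cases i
          · exact h3
          · show x 1 = 0
            rw [h1, h3, mul_zero]
          · exact h4
          · show x 3 = 0
            rw [h2, h4, mul_zero]
        have h5 := Complex.normSq_pos.mpr h4
        have h6 := Complex.normSq_nonneg (x 0)
        positivity
      · have h5 := Complex.normSq_pos.mpr h3
        have h6 := Complex.normSq_nonneg (x 2)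
        positivity
    interval_cases p
    · rw [V4_zero, mem_W] at hx
      refine ⟨_, hpos _ _ hx.1 hx.2, ?_⟩
      rw [e4, Pi.star_apply, Pi.star_apply, Pi.star_apply, Pi.star_apply, hx.1, hx.2]
      push_cast
      rw [← Complex.mul_conj, ← Complex.mul_conj]
      simp only [star_mul', star_neg, Complex.star_def, Complex.conj_I, Complex.conj_ofReal, pow_zero,
        pow_one]
      linear_combination (-2 * (τ : ℂ) * x 0 * (starRingEnd ℂ) (x 0) - 2 * x 2 * (starRingEnd ℂ) (x 2)) *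
        Complex.I_mul_I
    · rw [V4_one, mem_W] at hx
      refine ⟨_, hpos _ _ hx.1 hx.2, ?_⟩
      rw [e4, Pi.star_apply, Pi.star_apply, Pi.star_apply, Pi.star_apply, hx.1, hx.2]
      push_cast
      rw [← Complex.mul_conj, ← Complex.mul_conj]
      simp only [star_mul', Complex.star_def, Complex.conj_I, Complex.conj_ofReal, pow_zero, pow_one]
      linear_combination (-2 * (τ : ℂ) * x 0 * (starRingEnd ℂ) (x 0) - 2 * x 2 * (starRingEnd ℂ) (x 2)) *
        Complex.I_mul_I

theorem per4 (n : ℕ) : (nf N4 N4_nil).per P4 n 0 = ![1, Complex.I * ((Real.log n / (2 * Real.pi) : ℝ) : ℂ), 0, 0] ∧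
    (nf N4 N4_nil).per P4 n 1 = ![0, (2 * Real.pi * Complex.I)⁻¹, 0, 0] ∧
    (nf N4 N4_nil).per P4 n 2 = ![0, 0, 1, Complex.I] ∧
    (nf N4 N4_nil).per P4 n 3 = ![0, 0, 0, 1] := by
  have h : ∀ a, (nf N4 N4_nil).per P4 n a = P4 *ᵥ (eN N4 (-Complex.log n)) a := by
    intro a
    unfold Sys.per
    show P4 *ᵥ YH (1 : Matrix (Fin 4) (Fin 4) (PowerSeries ℚ)) N4 n a = _
    rw [YH_one]
  have hl : Complex.log n = ((Real.log n : ℝ) : ℂ) := by
    rw [Complex.natCast_log]
  refine ⟨?_, ?_, ?_, ?_⟩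
  · rw [h, eN4, hl]
    funext i
    fin_cases i <;> simp [P4, Matrix.mulVec, dotProduct, Fin.sum_univ_succ]
    have h2 := tpi
    have hpi : (Real.pi : ℂ) ≠ 0 := Complex.ofReal_ne_zero.mpr Real.pi_ne_zero
    field_simp
  · rw [h, eN4]
    funext i
    fin_cases i <;> simp [P4, Matrix.mulVec, dotProduct, Fin.sum_univ_succ]
  · rw [h, eN4]
    funext i
    fin_cases i <;> simp [P4, Matrix.mulVec, dotProduct, Fin.sum_univ_succ]
  · rw [h, eN4]
    funext i
    fin_cases i <;> simp [P4, Matrix.mulVec, dotProduct, Fin.sum_univ_succ]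

theorem fil4 (n : ℕ) (hn : 2 ≤ n) : (nf N4 N4_nil).HasFil lev4 P4 n (V4 (Real.log n / (2 * Real.pi))) := by
  obtain ⟨h0, h1, h2, h3⟩ := per4 n
  intro p
  rcases Nat.lt_or_ge 1 p with hp | hp
  · have e1 : (⨆ p' ∈ Set.Ici p, V4 (Real.log n / (2 * Real.pi)) p') = ⊥ := by
      rw [iSup₂_eq_bot]
      intro p' hp'
      exact V4_big _ p' (lt_of_lt_of_le hp hp')
    rw [e1, eq_comm, Submodule.span_eq_bot]
    rintro y ⟨a, ha, -⟩
    exfalso
    fin_cases a <;> simp [lev4] at ha <;> omega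
  · interval_cases p
    · -- everything
      have e1 : (⨆ p' ∈ Set.Ici 0, V4 (Real.log n / (2 * Real.pi)) p') = ⊤ := by
        rw [eq_top_iff, ← (pol4 (τ := Real.log n / (2 * Real.pi)) (by
          have := Real.log_pos (show (1 : ℝ) < n by exact_mod_cast hn)
          positivity)).span]
        refine iSup_le fun p' => ?_
        exact le_iSup₂_of_le p' (Set.mem_Ici.2 (Nat.zero_le _)) le_rfl
      rw [e1, eq_comm, eq_top_iff]
      intro x _
      have e2 : x = (x 0) • (nf N4 N4_nil).per P4 n 0 +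
          ((x 1 - Complex.I * ((Real.log n / (2 * Real.pi) : ℝ) : ℂ) * x 0) * (2 * Real.pi * Complex.I)) •
            (nf N4 N4_nil).per P4 n 1 + (x 2) • (nf N4 N4_nil).per P4 n 2 +
          (x 3 - Complex.I * x 2) • (nf N4 N4_nil).per P4 n 3 := by
        rw [h0, h1, h2, h3]
        have ht := tpi
        funext i
        fin_cases i
        · simp
        · show x 1 = x 0 * (Complex.I * ((Real.log n / (2 * Real.pi) : ℝ) : ℂ)) +
            ((x 1 - Complex.I * ((Real.log n / (2 * Real.pi) : ℝ) : ℂ) * x 0) * (2 * Real.pi * Complex.I)) *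
            (2 * Real.pi * Complex.I)⁻¹ + x 2 * 0 + (x 3 - Complex.I * x 2) * 0
          rw [mul_assoc (x 1 - _), mul_inv_cancel₀ ht]
          ring
        · simp
        · simp
          ring
      rw [e2]
      have e3 : ∀ a, (nf N4 N4_nil).per P4 n a ∈ Submodule.span ℂ
          {y | ∃ a : Fin 4, 0 ≤ lev4 a ∧ y = (nf N4 N4_nil).per P4 n a} := fun a =>
        Submodule.subset_span ⟨a, Nat.zero_le _, rfl⟩
      exact Submodule.add_mem _ (Submodule.add_mem _ (Submodule.add_mem _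
        (Submodule.smul_mem _ _ (e3 0)) (Submodule.smul_mem _ _ (e3 1)))
        (Submodule.smul_mem _ _ (e3 2))) (Submodule.smul_mem _ _ (e3 3))
    · have e1 : (⨆ p' ∈ Set.Ici 1, V4 (Real.log n / (2 * Real.pi)) p') =
          V4 (Real.log n / (2 * Real.pi)) 1 := by
        apply le_antisymm
        · refine iSup₂_le fun p' hp' => ?_
          rcases Nat.lt_or_ge 1 p' with h | h
          · rw [V4_big _ p' h]; exact bot_le
          · have : p' = 1 := le_antisymm h hp'
            rw [this]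
        · exact le_iSup₂_of_le 1 (Set.mem_Ici.2 le_rfl) le_rfl
      rw [e1, V4_one]
      apply le_antisymm
      · intro x hx
        rw [mem_W] at hx
        have e2 : x = (x 0) • (nf N4 N4_nil).per P4 n 0 + (x 2) • (nf N4 N4_nil).per P4 n 2 := by
          rw [h0, h2]
          funext i
          fin_cases i
          · simp
          · show x 1 = x 0 * (Complex.I * ((Real.log n / (2 * Real.pi) : ℝ) : ℂ)) + x 2 * 0
            rw [hx.1]; ring
          · simp
          · show x 3 = x 0 * 0 + x 2 * Complex.I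
            rw [hx.2]; ring
        rw [e2]
        exact Submodule.add_mem _ (Submodule.smul_mem _ _ (Submodule.subset_span ⟨0, le_rfl, rfl⟩))
          (Submodule.smul_mem _ _ (Submodule.subset_span ⟨2, le_rfl, rfl⟩))
      · rw [Submodule.span_le]
        rintro y ⟨a, ha, rfl⟩
        fin_cases a
        · show (nf N4 N4_nil).per P4 n 0 ∈ W _ _
          rw [h0, mem_W]
          simp
        · simp [lev4] at ha
        · show (nf N4 N4_nil).per P4 n 2 ∈ W _ _
          rw [h2, mem_W]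
          simp
        · simp [lev4] at ha

/-- There is a family of rank four and weight one which satisfies the hypotheses of the theorems:
integral monodromy, the theorem of the fixed part, polarised Hodge structures with the given periods at
all `n ≥ 2`; the monodromy group is not trivial and not Zariski dense in the symplectic group. -/
theorem nv3 :
    ∃ (F : Sys (Fin 4)) (P : Matrix (Fin 4) (Fin 4) ℂ) (E : Matrix (Fin 4) (Fin 4) ℚ)
      (lev : Fin 4 → ℕ), IsUnit P.det ∧ F.IntM P ∧ (∀ R : ℝ, F.FixedPart lev P 1 R) ∧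
      (∀ n : ℕ, 2 ≤ n → ∃ V : ℕ → Submodule ℂ (Fin 4 → ℂ), F.Fibre lev P 1 n E V) ∧
      (∃ γ ∈ F.Mo P, γ ≠ 1) ∧
      ∃ f : MvPolynomial (Fin 4 × Fin 4) ℂ, (∀ γ ∈ F.Mo P, pev γ f = 0) ∧
        ∃ g : Matrix (Fin 4) (Fin 4) ℂ,
          gᵀ * E.map (algebraMap ℚ ℂ) * g = E.map (algebraMap ℚ ℂ) ∧ pev g f ≠ 0 := by
  refine ⟨nf N4 N4_nil, P4, E4, lev4, P4_det, int4, fun R => fix_nf N4_nil P4_det _ _ R,
    fun n hn => ⟨_, pol4 ?_, inv4, fil4 n hn⟩, ⟨_, mo4', ?_⟩, MvPolynomial.X (0, 1), ?_,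
    !![0, 1, 0, 0; -1, 0, 0, 0; 0, 0, 1, 0; 0, 0, 0, 1], ?_, ?_⟩
  · have := Real.log_pos (show (1 : ℝ) < n by exact_mod_cast hn)
    positivity
  · intro h
    have h1 := congrFun (congrFun h 1) 0
    simp [A4] at h1
  · intro γ hγ
    obtain ⟨k, rfl⟩ := mo4 hγ
    rw [pev_X]
    simp [A4]
  · ext i j
    fin_cases i <;> fin_cases j <;> simp [E4, Matrix.mul_apply, Fin.sum_univ_succ]
  · rw [pev_X]
    simp

end Pool.Agent.MT100A.NV3
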